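import Pool.Agent.H30.SY.Stm

/-! # Project SY (helper30): module FAR (helper59) -/

set_option autoImplicit false

namespace Pool.Agent.H59.SY

open MeasureTheory ProbabilityTheory Finset Filter
open Q70.Fp Pool.Agent.H30.SY

theorem dd_smul (v : ℤ × ℤ) : dd ((133:ℤ) • v) ((134:ℤ) • v) = dd 0 v := by
  simp only [dd, Prod.smul_fst, Prod.smul_snd, smul_eq_mul, Prod.fst_zero, Prod.snd_zero]
  congr 2 <;> ring

theorem dd_far (v : ℤ × ℤ) : dd 0 ((133:ℤ) • v) = 133 * dd 0 v := by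
  simp only [dd, Prod.smul_fst, Prod.smul_snd, smul_eq_mul, Prod.fst_zero, Prod.snd_zero, sub_zero, Int.natAbs_mul]
  norm_num
  ring

/-- outside of a small event the local time is the passage time -/
theorem loc (x y : ℤ × ℤ) {m : ℕ} (h : dd x y ≤ m) :
    nu.real {w : Ed → ℝ | TT (pw w) x y ≠ TB (pw w) (66 * m) x y} ≤ 2 * (1 / 2) ^ m := by
  have e : {w : Ed → ℝ | TT (pw w) x y ≠ TB (pw w) (66 * m) x y} = {w | TT (pw w) x y < TB (pw w) (66 * m) x y} := by
    ext w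
    have h1 : TT (pw w) x y ≤ TB (pw w) (66 * m) x y := TT_le_TB (pw_nonneg w) (by omega)
    exact ⟨fun h2 => lt_of_le_of_ne h1 h2, fun h2 => ne_of_lt h2⟩
  rw [e]
  exact local_le h

theorem t_FAR (hFUB : S_FUB) : S_FAR := by
  intro v hv s hs
  obtain ⟨n, hn⟩ : ∃ n, n = dd 0 v := ⟨_, rfl⟩
  have hn1 : 1 ≤ n := by
    rcases Nat.eq_zero_or_pos n with h | h
    · exact absurd (dd_eq_zero (by rw [← hn]; exact h)).symm hv
    · exact h
  obtain ⟨X, hX⟩ : ∃ X : (Ed → ℝ) → ℝ, X = fun w => TB (pw w) (66 * n) 0 v := ⟨_, rfl⟩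
  obtain ⟨Y, hY⟩ : ∃ Y : (Ed → ℝ) → ℝ, Y = fun w => TB (pw w) (66 * n) ((133:ℤ) • v) ((134:ℤ) • v) := ⟨_, rfl⟩
  have hdisj : Disjoint (be (66 * n) 0) (be (66 * n) ((133:ℤ) • v)) := be_disj (by rw [dd_far, ← hn]; omega)
  obtain ⟨c, hc⟩ := hFUB (be (66 * n) 0) (be (66 * n) ((133:ℤ) • v)) X Y hdisj (by rw [hX]; exact measurable_TB _ _ _)
    (by rw [hY]; exact measurable_TB _ _ _) (fun w w' h => by rw [hX]; exact TB_dep h)
    (fun w w' h => by rw [hY]; exact TB_dep h) s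
  refine ⟨c, ?_⟩
  have l1 : nu.real {w : Ed → ℝ | TT (pw w) 0 v ≠ X w} ≤ 2 * (1 / 2) ^ n := by
    rw [hX]
    exact loc 0 v (by rw [hn])
  have l2 : nu.real {w : Ed → ℝ | TT (pw w) ((133:ℤ) • v) ((134:ℤ) • v) ≠ Y w} ≤ 2 * (1 / 2) ^ n := by
    rw [hY]
    exact loc _ _ (by rw [dd_smul, hn])
  have s1 : nu.real {w : Ed → ℝ | s < |TT (pw w) 0 v - c|} ≤ nu.real {w | s < |X w - c|} + 2 * (1 / 2) ^ n := by
    have hsub : {w : Ed → ℝ | s < |TT (pw w) 0 v - c|} ⊆ {w | s < |X w - c|} ∪ {w : Ed → ℝ | TT (pw w) 0 v ≠ X w} := by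
      intro w hw
      by_cases h : TT (pw w) 0 v = X w
      · left
        change s < |X w - c|
        rw [← h]
        exact hw
      · right
        exact h
    refine (measureReal_mono hsub (measure_ne_top _ _)).trans ((measureReal_union_le _ _).trans ?_)
    linarith
  have s2 : nu.real {w : Ed → ℝ | s < |X w - Y w|} ≤
      nu.real {w : Ed → ℝ | s < |TT (pw w) 0 v - TT (pw w) ((133:ℤ) • v) ((134:ℤ) • v)|} + 2 * (1 / 2) ^ n + 2 * (1 / 2) ^ n := by
    have hsub : {w : Ed → ℝ | s < |X w - Y w|} ⊆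
        ({w : Ed → ℝ | s < |TT (pw w) 0 v - TT (pw w) ((133:ℤ) • v) ((134:ℤ) • v)|} ∪ {w : Ed → ℝ | TT (pw w) 0 v ≠ X w}) ∪
          {w : Ed → ℝ | TT (pw w) ((133:ℤ) • v) ((134:ℤ) • v) ≠ Y w} := by
      intro w hw
      by_cases h : TT (pw w) 0 v = X w
      · by_cases h' : TT (pw w) ((133:ℤ) • v) ((134:ℤ) • v) = Y w
        · left
          left
          change s < |TT (pw w) 0 v - TT (pw w) ((133:ℤ) • v) ((134:ℤ) • v)|
          rw [h, h']
          exact hw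
        · right
          exact h'
      · left
        right
        exact h
    refine (measureReal_mono hsub (measure_ne_top _ _)).trans ((measureReal_union_le _ _).trans ?_)
    have h3 := measureReal_union_le (μ := nu)
      {w : Ed → ℝ | s < |TT (pw w) 0 v - TT (pw w) ((133:ℤ) • v) ((134:ℤ) • v)|} {w : Ed → ℝ | TT (pw w) 0 v ≠ X w}
    linarith
  rw [← hn]
  linarith

end Pool.Agent.H59.SY
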