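import Mathlib

/-! # Log-concavity of the upper tail bounds the mean (Mathlib only) -/

set_option autoImplicit false

open MeasureTheory Filter

namespace Pool.Agent.H59.SY

theorem tail_pow {Ω : Type*} [MeasurableSpace Ω] (P : Measure Ω) [IsProbabilityMeasure P] (T : Ω → ℝ)
    (hlc : ∀ s t θ : ℝ, 0 < θ → θ < 1 → P.real {w | s ≤ T w} ^ θ * P.real {w | t ≤ T w} ^ (1 - θ) ≤
      P.real {w | θ * s + (1 - θ) * t ≤ T w}) (m r : ℝ) (hr : 0 < r)
    (h1 : 1 / 2 ≤ P.real {w | m ≤ T w}) (h2 : P.real {w | m + r < T w} ≤ 1 / 4) (k : ℕ) :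
    P.real {w | m + 2 * r * k ≤ T w} ≤ (1 / 2) ^ k := by
  have h3 : P.real {w | m + 2 * r ≤ T w} ≤ 1 / 4 := by
    refine le_trans (measureReal_mono ?_ (measure_ne_top _ _)) h2
    intro w hw
    have hw' : m + 2 * r ≤ T w := hw
    show m + r < T w
    linarith
  rcases Nat.lt_or_ge k 2 with hk | hk
  · interval_cases k
    · rw [pow_zero]
      exact measureReal_le_one
    · have e : m + 2 * r * ((1 : ℕ) : ℝ) = m + 2 * r := by push_cast; ring
      rw [e, pow_one]
      linarith
  · have hk0 : (2 : ℝ) ≤ k := by exact_mod_cast hk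
    have hk1 : (0 : ℝ) < k := by linarith
    set x : ℝ := P.real {w | m + 2 * r * k ≤ T w} with hx
    have hx0 : 0 ≤ x := measureReal_nonneg
    have h4 := hlc m (m + 2 * r * k) (1 - 1 / k) (by
      have : 1 / (k : ℝ) ≤ 1 / 2 := one_div_le_one_div_of_le (by norm_num) hk0
      linarith) (by
      have : 0 < 1 / (k : ℝ) := by positivity
      linarith)
    have e1 : (1 - 1 / (k : ℝ)) * m + (1 - (1 - 1 / (k : ℝ))) * (m + 2 * r * k) = m + 2 * r := by
      field_simp
      ring
    rw [e1, sub_sub_cancel] at h4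
    have h5 : (1 / 2 : ℝ) ≤ P.real {w | m ≤ T w} ^ (1 - 1 / (k : ℝ)) := by
      have h6 : P.real {w | m ≤ T w} ≤ 1 := measureReal_le_one
      calc (1 / 2 : ℝ) ≤ P.real {w | m ≤ T w} := h1
        _ = P.real {w | m ≤ T w} ^ (1 : ℝ) := (Real.rpow_one _).symm
        _ ≤ P.real {w | m ≤ T w} ^ (1 - 1 / (k : ℝ)) := by
            apply Real.rpow_le_rpow_of_exponent_ge (by linarith) h6
            have : 0 < 1 / (k : ℝ) := by positivity
            linarith
    have h7 : x ^ (1 / (k : ℝ)) ≤ 1 / 2 := by
      have h8 : 0 ≤ x ^ (1 / (k : ℝ)) := Real.rpow_nonneg hx0 _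
      nlinarith [mul_le_mul_of_nonneg_right h5 h8]
    have h9 : x = (x ^ (1 / (k : ℝ))) ^ k := by
      rw [← Real.rpow_natCast, ← Real.rpow_mul hx0, one_div_mul_cancel hk1.ne', Real.rpow_one]
    rw [h9]
    exact pow_le_pow_left₀ (Real.rpow_nonneg hx0 _) h7 k

theorem mean_le {Ω : Type*} [MeasurableSpace Ω] (P : Measure Ω) [IsProbabilityMeasure P] (T : Ω → ℝ)
    (hT : Measurable T) (hi : Integrable T P) (m r : ℝ) (hr : 0 < r)
    (h : ∀ k : ℕ, P.real {w | m + 2 * r * k ≤ T w} ≤ (1 / 2) ^ k) :
    ∫ w, T w ∂P ≤ m + 4 * r := by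
  have hms : ∀ k : ℕ, MeasurableSet {w | m + 2 * r * k ≤ T w} := fun k =>
    measurableSet_le measurable_const hT
  have hpt : ∀ w, ENNReal.ofReal (T w - m) ≤
      ∑' k : ℕ, ({w | m + 2 * r * k ≤ T w} : Set Ω).indicator (fun _ => ENNReal.ofReal (2 * r)) w := by
    intro w
    rcases le_or_gt (T w) m with h1 | h1
    · rw [ENNReal.ofReal_of_nonpos (by linarith)]
      exact bot_le
    · set K : ℕ := ⌊(T w - m) / (2 * r)⌋₊ + 1 with hK
      refine le_trans ?_ (ENNReal.sum_le_tsum (Finset.range K))
      have e : ∀ k ∈ Finset.range K,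
          ({w | m + 2 * r * k ≤ T w} : Set Ω).indicator (fun _ => ENNReal.ofReal (2 * r)) w =
            ENNReal.ofReal (2 * r) := by
        intro k hk
        apply Set.indicator_of_mem
        show m + 2 * r * k ≤ T w
        have h2 : k ≤ ⌊(T w - m) / (2 * r)⌋₊ := by
          have := Finset.mem_range.mp hk
          omega
        have h3 : (k : ℝ) ≤ (T w - m) / (2 * r) :=
          (Nat.le_floor_iff (div_nonneg (by linarith) (by linarith))).mp h2
        rw [le_div_iff₀ (by linarith)] at h3
        linarith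
      rw [Finset.sum_congr rfl e, Finset.sum_const, Finset.card_range, nsmul_eq_mul,
        ← ENNReal.ofReal_natCast, ← ENNReal.ofReal_mul (Nat.cast_nonneg _)]
      apply ENNReal.ofReal_le_ofReal
      have h4 := (Nat.lt_floor_add_one ((T w - m) / (2 * r))).le
      rw [div_le_iff₀ (by linarith)] at h4
      rw [hK]
      push_cast
      linarith
  have h2 : ∫⁻ w, ENNReal.ofReal (T w - m) ∂P ≤ ENNReal.ofReal (4 * r) := by
    calc ∫⁻ w, ENNReal.ofReal (T w - m) ∂P
        ≤ ∫⁻ w, ∑' k : ℕ, ({w | m + 2 * r * k ≤ T w} : Set Ω).indicator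
            (fun _ => ENNReal.ofReal (2 * r)) w ∂P := lintegral_mono hpt
      _ = ∑' k : ℕ, ∫⁻ w, ({w | m + 2 * r * k ≤ T w} : Set Ω).indicator
            (fun _ => ENNReal.ofReal (2 * r)) w ∂P := by
          refine lintegral_tsum fun k => ?_
          exact (measurable_const.indicator (hms k)).aemeasurable
      _ = ∑' k : ℕ, ENNReal.ofReal (2 * r) * P {w | m + 2 * r * k ≤ T w} := by
          refine tsum_congr fun k => ?_
          rw [lintegral_indicator_const (hms k)]
      _ ≤ ∑' k : ℕ, ENNReal.ofReal (2 * r) * (2⁻¹ : ENNReal) ^ k := by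
          refine ENNReal.tsum_le_tsum fun k => ?_
          gcongr
          have h3 := h k
          rw [measureReal_def] at h3
          have h4 : P {w | m + 2 * r * k ≤ T w} ≤ ENNReal.ofReal ((1 / 2) ^ k) := by
            rw [← ENNReal.ofReal_toReal (measure_ne_top P {w | m + 2 * r * k ≤ T w})]
            exact ENNReal.ofReal_le_ofReal h3
          refine h4.trans (le_of_eq ?_)
          rw [ENNReal.ofReal_pow (by norm_num), one_div, ENNReal.ofReal_inv_of_pos (by norm_num),
            ENNReal.ofReal_ofNat]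
      _ = ENNReal.ofReal (4 * r) := by
          rw [ENNReal.tsum_mul_left, ENNReal.tsum_geometric_two]
          rw [show (2 : ENNReal) = ENNReal.ofReal 2 by rw [ENNReal.ofReal_ofNat],
            ← ENNReal.ofReal_mul (by linarith)]
          congr 1
          ring
  have h3 : ∫ w, (T w - m) ∂P ≤ 4 * r := by
    calc ∫ w, (T w - m) ∂P ≤ ∫ w, max (T w - m) 0 ∂P := by
          refine integral_mono (hi.sub (integrable_const _)) (hi.sub (integrable_const _)).pos_part ?_
          intro w
          exact le_max_left _ _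
      _ = (∫⁻ w, ENNReal.ofReal (max (T w - m) 0) ∂P).toReal := by
          exact integral_eq_lintegral_of_nonneg_ae (f := fun w => max (T w - m) 0)
            (Eventually.of_forall fun w => le_max_right _ _)
            ((hT.sub measurable_const).max measurable_const).aestronglyMeasurable
      _ ≤ 4 * r := by
          have e : ∀ w, ENNReal.ofReal (max (T w - m) 0) = ENNReal.ofReal (T w - m) := by
            intro w
            rcases le_total (T w - m) 0 with h5 | h5
            · rw [max_eq_right h5, ENNReal.ofReal_zero, ENNReal.ofReal_of_nonpos h5]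
            · rw [max_eq_left h5]
          rw [lintegral_congr e]
          refine (ENNReal.toReal_mono ENNReal.ofReal_ne_top h2).trans ?_
          rw [ENNReal.toReal_ofReal (by linarith)]
  rw [integral_sub hi (integrable_const _), integral_const, probReal_univ, one_smul] at h3
  linarith

end Pool.Agent.H59.SY
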