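import Pool.Agent.H30.SY.Stm6
import Pool.Agent.H59.SY.R4c

/-! # SY R4: log-concavity of the upper tail bounds the mean -/

set_option autoImplicit false

open MeasureTheory ProbabilityTheory Finset Filter

namespace Pool.Agent.H59.SY

open Q70.Fp Q69.FM

theorem t_R4 : Pool.Agent.H30.SY.S_R4 := by
  intro hlc v m r hr hM h2
  have hT : Measurable (fun w : Ed → ℝ => TT (pw w) 0 v) := measurable_TT 0 v
  have h1 : 1 / 2 ≤ nu.real {w : Ed → ℝ | m ≤ TT (pw w) 0 v} := by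
    have e : {w : Ed → ℝ | m ≤ TT (pw w) 0 v} = {w : Ed → ℝ | TT (pw w) 0 v < m}ᶜ := by
      ext w
      simp [not_lt]
    rw [e, probReal_compl_eq_one_sub (measurableSet_lt hT measurable_const)]
    have := hM.1
    linarith
  have h3 : ∀ s t θ : ℝ, 0 < θ → θ < 1 →
      nu.real {w : Ed → ℝ | s ≤ TT (pw w) 0 v} ^ θ * nu.real {w : Ed → ℝ | t ≤ TT (pw w) 0 v} ^ (1 - θ) ≤
      nu.real {w : Ed → ℝ | θ * s + (1 - θ) * t ≤ TT (pw w) 0 v} := fun s t θ => hlc v s t θ
  have h4 := mean_le nu (fun w => TT (pw w) 0 v) hT (integrable_TT 0 v) m r hr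
    (tail_pow nu (fun w => TT (pw w) 0 v) h3 m r hr h1 h2)
  unfold hm
  linarith

end Pool.Agent.H59.SY
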